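import Pool.Agent.Hp428.TH.Std

set_option autoImplicit false

/-!
# Zeros of the heat flow: abstract form
-/

namespace Pool.Agent.Hp428.TH

open Complex Filter Topology Set MeasureTheory
open Pool.Agent.H24R2.DZ (NN)
open Pool.Agent.W186.SD (UU NG Grow)
open Pool.Agent.W186.SD.PTaux (NG_mono noz)
open Pool.Agent.R838.CR (RELI reg_local)
open Pool.Agent.W169.HF (heat Slow)
open Pool.Agent.Hp428.TD
open scoped ComplexConjugate

/-- the logarithm of the analytic conductor -/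
noncomputable def ell (L y : ℝ) : ℝ := L + Real.log (2 + |y|)

theorem ell_ge {L : ℝ} (y : ℝ) : L ≤ ell L y := by
  unfold ell
  have : 0 ≤ Real.log (2 + |y|) := Real.log_nonneg (by have := abs_nonneg y; linarith)
  linarith

theorem log_half {x : ℝ} (hx : 100 ≤ x) : 2 * Real.log x ≤ x := by
  have h1 := Real.quadratic_le_exp_of_nonneg (x := x / 2) (by linarith)
  have h2 : x ≤ Real.exp (x / 2) := by nlinarith
  have h3 := Real.log_le_log (by linarith) h2
  rw [Real.log_exp] at h3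
  linarith

theorem oq_ge {L y n : ℝ} (hn : 0 ≤ n) : ell L y ≤ Oq L y n := by
  unfold ell Oq
  have hy := abs_nonneg y
  have := Real.log_le_log (x := 2 + |y|) (y := 2 + |y| + n) (by linarith) (by linarith)
  linarith

theorem oq_le {L y τ : ℝ} (hL : 100 ≤ L) (hτ : 0 < τ) (hτ8 : τ ≤ 1 / 8) :
    Oq L y (τ * ell L y ^ 2) ≤ ell L y + 2 * Real.log (ell L y) := by
  have hy := abs_nonneg y
  have hl := hL.trans (ell_ge (L := L) y)
  obtain ⟨l, hl'⟩ : ∃ l, l = ell L y := ⟨_, rfl⟩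
  rw [← hl'] at hl ⊢
  have h1 : 2 + |y| + τ * l ^ 2 ≤ (2 + |y|) * l ^ 2 := by
    have h2 : τ * l ^ 2 ≤ 1 / 8 * l ^ 2 := by gcongr
    have h3 : 10000 ≤ l ^ 2 := by nlinarith
    nlinarith
  have h4 := Real.log_le_log (by positivity) h1
  rw [Real.log_mul (by positivity) (by positivity), Real.log_pow] at h4
  have h5 : l = L + Real.log (2 + |y|) := hl'
  unfold Oq
  push_cast at h4
  linarith

/-- the numbers at the natural scale -/
theorem scale {L y τ : ℝ} (hL : 100 ≤ L) (hτ : 0 < τ) (hτ8 : τ ≤ 1 / 8) :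
    ∃ Om : ℝ, Om = Oq L y (τ * ell L y ^ 2) ∧ 100 ≤ Om ∧ ell L y ≤ Om ∧
      Om ≤ ell L y + 2 * Real.log (ell L y) ∧
      2 * (τ * ell L y ^ 2) ≤ (2 * τ * Om) * Om ∧ 2 * τ * Om ≤ τ * ell L y ^ 2 := by
  have hl := hL.trans (ell_ge (L := L) y)
  have h0 : 0 ≤ τ * ell L y ^ 2 := by positivity
  have h1 := oq_ge (L := L) (y := y) h0
  have h2 := oq_le (y := y) hL hτ hτ8
  have h3 := log_half hl
  refine ⟨_, rfl, by linarith, h1, h2, ?_, ?_⟩
  · have h4 : ell L y ^ 2 ≤ Oq L y (τ * ell L y ^ 2) ^ 2 := by gcongr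
    nlinarith
  · have h4 : Oq L y (τ * ell L y ^ 2) ≤ 2 * ell L y := by linarith
    have h5 : 2 * τ * Oq L y (τ * ell L y ^ 2) ≤ 2 * τ * (2 * ell L y) := by gcongr
    have h6 : 2 * τ * (2 * ell L y) ≤ τ * ell L y ^ 2 := by
      have : 4 * ell L y ≤ ell L y ^ 2 := by nlinarith
      nlinarith
    linarith

/-- all zeros of the heat flow are simple and on the line -/
theorem not_bad {K : ℝ} (hK : 1 ≤ K) : ∃ K2 L0 : ℝ, 1 ≤ K2 ∧ 100 ≤ L0 ∧
    ∀ (L Q : ℝ) (R G : ℂ → ℂ), L0 ≤ L → GQ L K Q R G → ∀ (τ : ℝ) (s : ℂ), 0 < τ → τ ≤ 1 / 8 →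
      K2 * el L s.im ≤ τ * ell L s.im ^ 2 → heat τ G s = 0 →
      s.re = 0 ∧ deriv (heat τ G) s ≠ 0 := by
  obtain ⟨ηA, aA, hηA, haA, HA⟩ := Pool.Agent.Y671.LD.aw (1 / 2) (by norm_num) le_rfl
  obtain ⟨ηL, aL, hηL, haL, HL⟩ := Pool.Agent.Y671.LD.nl
  obtain ⟨K2, L0, hK2, hL0, hNG⟩ := ng_all hK (lt_min hηA hηL) (a0 := max aA aL)
    (by have := le_max_left aA aL; linarith)
  refine ⟨K2, L0, hK2, hL0, fun L Q R G hL H τ s hτ hτ8 hn hz => ?_⟩
  have hL100 : 100 ≤ L := hL0.trans hL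
  have hL1 : 1 ≤ L := by linarith
  obtain ⟨hn0, hn1, hOL, hN⟩ := hNG L Q R G hL H _ s.im hn
  obtain ⟨Om, hOm, hO100, hOl, hOu, hOn, hOr⟩ := scale (y := s.im) hL100 hτ hτ8
  obtain ⟨n, hnd⟩ : ∃ n, n = τ * ell L s.im ^ 2 := ⟨_, rfl⟩
  rw [← hnd] at hn0 hn1 hOL hN hOm hOn hOr
  rw [← hOm] at hN hOL
  have hstrip : |s.re| ≤ 1 / 2 :=
    (Pool.Agent.Y275.GL.hht G (slow_G hK hL1 H) H.symm (nz_G hK hL1 H) (strip_G hK hL1 H)).2.2.2.1
      τ s hτ.le hz
  obtain ⟨r1, hr1⟩ : ∃ r1 : ℝ, r1 = 2 * τ * Om := ⟨_, rfl⟩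
  rw [← hr1] at hOn hOr
  have hr1p : 0 < r1 := by rw [hr1]; positivity
  have hcoord : ∀ r : ℝ, 0 < r → I * (s.im : ℂ) + r * ((s.re / r : ℝ) : ℂ) = s := by
    intro r hr
    have : ((s.re / r : ℝ) : ℂ) = (s.re : ℂ) / r := by push_cast; ring
    rw [this, mul_div_cancel₀ _ (by exact_mod_cast hr.ne'), mul_comm I, add_comm, Complex.re_add_im]
  have hk : ∀ r : ℝ, 0 < r → ((r / (2 * Real.sqrt (Real.pi * τ)) : ℝ) : ℂ) ≠ 0 := by
    intro r hr
    have : 0 < Real.sqrt (Real.pi * τ) := Real.sqrt_pos.mpr (by positivity)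
    exact_mod_cast (by positivity : r / (2 * Real.sqrt (Real.pi * τ)) ≠ 0)
  have hUU : ∀ r : ℝ, 0 < r →
      UU (r ^ 2 / (4 * τ)) (fun z => G (I * (s.im : ℂ) + r * z)) ((s.re / r : ℝ) : ℂ) = 0 := by
    intro r hr
    have h := rel_G G τ r s.im ((s.re / r : ℝ) : ℂ) hτ hr
    rw [hcoord r hr] at h
    have h' : heat τ G s = _ := h
    rw [hz] at h'
    exact (mul_eq_zero.1 h'.symm).resolve_left (hk r hr)
  -- the region which is excluded
  have hno : ∀ r : ℝ, r1 ≤ r → r ≤ n + 1 → ¬ (r / 2 ≤ |s.re| ∧ |s.re| ≤ 6 * r) := by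
    intro r h1 h2
    have hr : 0 < r := lt_of_lt_of_le hr1p h1
    have h3 : n ≤ r * Om := by
      have : r1 * Om ≤ r * Om := by gcongr
      linarith
    have h4 : r * Om / 2 ≤ r ^ 2 / (4 * τ) := by
      rw [le_div_iff₀ (by positivity)]
      have : r * (2 * τ * Om) ≤ r * r := by
        gcongr
        linarith
      nlinarith
    have hN1 := NG_mono (by positivity) (min_le_left ηA ηL) (hN r (r ^ 2 / (4 * τ)) h3 h2 h4)
    have h5 := noz (by norm_num) hN1 (HA _ _ _ (((le_max_left _ _).trans hn0).trans h3) h4 hN1)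
      ((s.re / r : ℝ) : ℂ) (by simp) (hUU r hr)
    rintro ⟨h6, h7⟩
    apply h5
    rw [ofReal_re, abs_div, abs_of_pos hr]
    constructor
    · rw [le_div_iff₀ hr]; linarith
    · rw [div_le_iff₀ hr]; linarith
  have hr1n : r1 ≤ n + 1 := by linarith
  have hsmall : |s.re| < r1 / 2 := by
    by_contra hcon
    push Not at hcon
    rcases le_or_gt |s.re| (6 * r1) with h1 | h1
    · exact hno r1 le_rfl hr1n ⟨hcon, h1⟩
    · have h2 : 0 < |s.re| := by linarith
      exact hno (|s.re| / 3) (by linarith) (by linarith) ⟨by linarith, by linarith⟩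
  -- the natural scale
  have hg : r1 ^ 2 / (4 * τ) = r1 * Om / 2 := by
    rw [hr1]
    field_simp
    ring
  have h3 : n ≤ r1 * Om := by linarith
  have hN1 := NG_mono (by positivity) (min_le_right ηA ηL) (hN r1 (r1 * Om / 2) h3 hr1n le_rfl)
  have hU := hUU r1 hr1p
  rw [hg] at hU
  obtain ⟨h4, h5⟩ := HL (r1 * Om) _ (((le_max_right _ _).trans hn0).trans h3) hN1 ((s.re / r1 : ℝ) : ℂ)
    (by
      rw [ofReal_re, abs_div, abs_of_pos hr1p, div_le_iff₀ hr1p]
      linarith) (by simp) hU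
  constructor
  · rw [ofReal_re, div_eq_zero_iff] at h4
    exact h4.resolve_right hr1p.ne'
  · intro hd
    apply h5
    have hfun : UU (r1 * Om / 2) (fun z => G (I * (s.im : ℂ) + r1 * z)) =
        fun w : ℂ => ((r1 / (2 * Real.sqrt (Real.pi * τ)) : ℝ) : ℂ)⁻¹ *
          heat τ G (I * (s.im : ℂ) + (r1 : ℂ) * w) := by
      funext w
      have h := rel_G G τ r1 s.im w hτ hr1p
      have h' : heat τ G (I * (s.im : ℂ) + (r1 : ℂ) * w) = _ := h
      rw [h', hg, inv_mul_cancel_left₀ (hk r1 hr1p)]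
    rw [hfun, deriv_const_mul_field]
    have hd1 : deriv (fun w : ℂ => heat τ G (I * (s.im : ℂ) + (r1 : ℂ) * w)) ((s.re / r1 : ℝ) : ℂ) =
        (r1 : ℂ) * deriv (heat τ G) s := by
      have h := deriv_comp_mul_left (r1 : ℂ) (fun w : ℂ => heat τ G (I * (s.im : ℂ) + w))
        ((s.re / r1 : ℝ) : ℂ)
      rw [smul_eq_mul, deriv_comp_const_add, hcoord r1 hr1p] at h
      exact h
    rw [hd1, hd, mul_zero, mul_zero]

/-- `ℓ` and the conductor at a nearby point -/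
theorem near {L y y' K2 τ : ℝ} (hL : 100 ≤ L) (hK2 : 1 ≤ K2) (hτ : 0 < τ)
    (h : 2 * K2 * el L y ≤ τ * ell L y ^ 2)
    (hy : |y' - y| ≤ 1 / 25) : K2 * el L y' ≤ τ * ell L y' ^ 2 := by
  have hy0 := abs_nonneg y
  have hy1 := abs_nonneg y'
  have key : ∀ u v : ℝ, |u - v| ≤ 1 / 25 → Real.log (2 + |u|) ≤ Real.log (2 + |v|) + 1 / 50 := by
    intro u v huv
    have hv := abs_nonneg v
    have hu := abs_nonneg u
    have h1 : |u| ≤ |u - v| + |v| := by
      calc |u| = |(u - v) + v| := by ring_nf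
        _ ≤ _ := abs_add_le _ _
    have h2 : 2 + |u| ≤ (2 + |v|) * (1 + 1 / 50) := by linarith
    have h3 := Real.log_le_log (by linarith) h2
    rw [Real.log_mul (by positivity) (by norm_num)] at h3
    have h4 : Real.log (1 + 1 / 50) ≤ 1 / 50 := by
      have := Real.log_le_sub_one_of_pos (x := (1 + 1 / 50 : ℝ)) (by norm_num)
      linarith
    linarith
  have h1 := key y' y hy
  have h2 := key y y' (by rw [abs_sub_comm]; exact hy)
  have hel : 1 / 2 ≤ el L y := by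
    unfold el
    have h1 := Real.log_nonneg (x := L) (by linarith)
    have h2 : Real.log 2 ≤ Real.log (2 + |y|) := Real.log_le_log (by norm_num) (by linarith)
    have := Real.log_two_gt_d9
    linarith
  have h3 : el L y' ≤ el L y + 1 / 50 := by unfold el; linarith
  have h4 : ell L y - 1 / 50 ≤ ell L y' := by unfold ell; linarith
  have hl := hL.trans (ell_ge (L := L) y)
  have h5 : 9 / 10 * ell L y ^ 2 ≤ ell L y' ^ 2 := by
    have h6 : (ell L y - 1 / 50) ^ 2 ≤ ell L y' ^ 2 := by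
      apply pow_le_pow_left₀ (by linarith) h4
    nlinarith
  have h7 : K2 * el L y' ≤ K2 * (3 / 2 * el L y) := by
    gcongr
    linarith
  have h8 : τ * (9 / 10 * ell L y ^ 2) ≤ τ * ell L y' ^ 2 := by gcongr
  nlinarith

/-- **Abstract theorem**: all zeros of the heat flow are simple, on the line and equally spaced. -/
theorem heat_abs {K : ℝ} (hK : 1 ≤ K) {ε : ℝ} (hε : 0 < ε) : ∃ K2 L0 : ℝ, 1 ≤ K2 ∧ 100 ≤ L0 ∧
    ∀ (L Q : ℝ) (R G : ℂ → ℂ), L0 ≤ L → GQ L K Q R G → ∀ (τ : ℝ) (s : ℂ), 0 < τ → τ ≤ 1 / 8 →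
      K2 * el L s.im ≤ τ * ell L s.im ^ 2 → heat τ G s = 0 →
      s.re = 0 ∧ deriv (heat τ G) s ≠ 0 ∧ ∃ g : ℝ, 0 < g ∧ |g * ell L s.im - Real.pi| ≤ ε ∧
        heat τ G (s + g * I) = 0 ∧ deriv (heat τ G) (s + g * I) ≠ 0 ∧
        ∀ z : ℂ, heat τ G z = 0 → s.im ≤ z.im → z.im ≤ s.im + g → z = s ∨ z = s + g * I := by
  obtain ⟨e, he⟩ : ∃ e : ℝ, e = min ε 1 / 2 := ⟨_, rfl⟩
  have he0 : 0 < e := by
    have := lt_min hε one_pos
    rw [he]; positivity
  have he1 : e ≤ 1 / 2 := by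
    have := min_le_right ε 1
    rw [he]; linarith
  have heε : 2 * e ≤ ε := by
    have := min_le_left ε 1
    rw [he]; linarith
  obtain ⟨ηG, aG, hηG, haG, HG⟩ := Pool.Agent.R838.CR.gap Pool.Agent.Y671.LD.ud e he0
  obtain ⟨K2a, L0a, hK2a, hL0a, hnb⟩ := not_bad hK
  obtain ⟨K2b, L0b, hK2b, hL0b, hNG⟩ := ng_all hK hηG (a0 := aG) (by linarith)
  have hlog : ∃ L1 : ℝ, ∀ x : ℝ, L1 ≤ x → 8 * Real.log x ≤ e * x := by
    have h := Real.isLittleO_log_id_atTop.bound (show 0 < e / 8 by positivity)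
    obtain ⟨M, hM⟩ := eventually_atTop.1 (h.and (eventually_ge_atTop (1 : ℝ)))
    refine ⟨M, fun x hx => ?_⟩
    obtain ⟨h1, h2⟩ := hM x hx
    simp only [id, Real.norm_eq_abs] at h1
    rw [abs_of_nonneg (Real.log_nonneg h2), abs_of_nonneg (by linarith)] at h1
    linarith
  obtain ⟨L1, hL1⟩ := hlog
  refine ⟨2 * max K2a K2b, max L1 (max L0a L0b), ?_, ?_, fun L Q R G hL H τ s hτ hτ8 hn hz => ?_⟩
  · have := le_max_left K2a K2b
    linarith
  · exact (hL0a.trans (le_max_left _ _)).trans (le_max_right _ _)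
  have hLa : L0a ≤ L := ((le_max_left _ _).trans (le_max_right _ _)).trans hL
  have hLb : L0b ≤ L := ((le_max_right _ _).trans (le_max_right _ _)).trans hL
  have hLc : L1 ≤ L := (le_max_left _ _).trans hL
  have hL100 : 100 ≤ L := hL0a.trans hLa
  have hel := el_nonneg (L := L) (by linarith) s.im
  have hna : 2 * K2a * el L s.im ≤ τ * ell L s.im ^ 2 := by
    refine le_trans ?_ hn
    gcongr
    exact le_max_left _ _
  have hnb' : K2b * el L s.im ≤ τ * ell L s.im ^ 2 := by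
    refine le_trans ?_ hn
    gcongr
    have := le_max_right K2a K2b
    linarith
  obtain ⟨hn0, hn1, hOL, hN⟩ := hNG L Q R G hLb H _ s.im hnb'
  obtain ⟨Om, hOm, hO100, hOl, hOu, hOn, hOr⟩ := scale (y := s.im) hL100 hτ hτ8
  obtain ⟨n, hnd⟩ : ∃ n, n = τ * ell L s.im ^ 2 := ⟨_, rfl⟩
  rw [← hnd] at hn0 hn1 hOL hN hOm hOn hOr
  rw [← hOm] at hN hOL
  obtain ⟨r, hr⟩ : ∃ r : ℝ, r = 2 * τ * Om := ⟨_, rfl⟩
  rw [← hr] at hOn hOr
  have hrp : 0 < r := by rw [hr]; positivity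
  have hg : r ^ 2 / (4 * τ) = r * Om / 2 := by
    rw [hr]
    field_simp
    ring
  have h3 : n ≤ r * Om := by linarith
  have hN1 := hN r (r * Om / 2) h3 (by linarith) le_rfl
  have ha1 : 1 ≤ r * Om := by linarith
  have h4 : 4 * r / (r * Om) = 4 / Om := by
    rw [div_eq_div_iff (by positivity) (by positivity)]
    ring
  have h5 : 4 / Om ≤ 1 / 25 := by
    rw [div_le_div_iff₀ (by linarith) (by norm_num)]
    linarith
  obtain ⟨c1, c2, g, c3, c4, c5, c6, c7, c8⟩ := reg_local (F := G) (FT := fun τ => heat τ G) (rel_G G)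
    (ε := e) (a := r * Om) (τ := τ) (r := r) (t' := s.im) (s := s) hτ hrp ha1 he1 hg
    (HG (r * Om) _ ((hn0.trans h3)) hN1) hz (by rw [sub_self, abs_zero]; positivity) (by
      intro z hz0 hz1 hz2
      refine hnb L Q R G hLa H τ z hτ hτ8 ?_ hz0
      refine near hL100 hK2a hτ hna ?_
      rw [h4] at hz2
      rw [abs_of_nonneg (by linarith)]
      linarith)
  refine ⟨c1, c2, g, c3, ?_, c6, c7, c8⟩
  have e1 : r * Om * (g / r) = g * Om := by field_simp
  rw [e1] at c5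
  rw [h4] at c4
  have hll := hL1 (ell L s.im) (hLc.trans (ell_ge _))
  have hl100 := hL100.trans (ell_ge (L := L) s.im)
  have hOp : 0 < Om := by linarith
  have h6 : g * (Om - ell L s.im) ≤ e := by
    calc g * (Om - ell L s.im) ≤ (4 / Om) * (2 * Real.log (ell L s.im)) := by
          apply mul_le_mul c4 (by linarith) (by linarith) (by positivity)
      _ = 8 * Real.log (ell L s.im) / Om := by ring
      _ ≤ e * ell L s.im / Om := by gcongr
      _ ≤ e * Om / Om := by gcongr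
      _ = e := by field_simp
  have h7 : 0 ≤ g * (Om - ell L s.im) := mul_nonneg c3.le (by linarith)
  have h8 := abs_le.1 c5
  rw [abs_le]
  constructor <;> nlinarith [h8.1, h8.2]

end Pool.Agent.Hp428.TH
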