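import Pool.Agent.Hp428.TD.Law

set_option autoImplicit false

/-!
# The heat flow of the completed L-functions of quadratic twists: definitions
-/

namespace Pool.Agent.Hp428.TH

open Complex
open Pool.Agent.Y19.QT (IsLFun sqf)
open Pool.Agent.Hp428.TD (IsCompleted)

/-- The heat flow `exp (t D²) M`, `D = d/ds`, at time `t ≥ 0`, as a Gaussian average:
`π^(-1/2) ∫ exp (-v²) M(s + 2 √t v) dv`. -/
noncomputable def heatFlow (t : ℝ) (M : ℂ → ℂ) (s : ℂ) : ℂ :=
  ((1 / Real.sqrt Real.pi : ℝ) : ℂ) *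
    ∫ v : ℝ, ((Real.exp (-v ^ 2) : ℝ) : ℂ) * M (s + ((2 * Real.sqrt t * v : ℝ) : ℂ))

/-- The zero `s` of `Y` is simple and on the line `Re s = 1`, and the next zero above `s` is again
simple and on the line, at the distance `g` with `|g l - π| ≤ ε`; `s` and `s + i g` are the only zeros
of `Y` with imaginary part in `[Im s, Im s + g]`. -/
def Regular (Y : ℂ → ℂ) (l ε : ℝ) (s : ℂ) : Prop :=
  s.re = 1 ∧ deriv Y s ≠ 0 ∧ ∃ g : ℝ, 0 < g ∧ |g * l - Real.pi| ≤ ε ∧
    Y (s + g * I) = 0 ∧ deriv Y (s + g * I) ≠ 0 ∧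
    ∀ z : ℂ, Y z = 0 → s.im ≤ z.im → z.im ≤ s.im + g → z = s ∨ z = s + g * I

/-- The zeros of the heat flow of the completed L-functions of almost all quadratic twists
`E_d : y² = x³ + a d² x + b d³` of `E : y² = x³ + a x + b`, `d` squarefree (positive or negative): the
completed L-functions exist, with a constant `c` depending on `E` only; and for every `c` and every
choice of completed L-functions `M_d` with this constant, for all `K` and `ε > 0` there are `C`, `K'`
such that for all `X ≥ 3` and for all squarefree `d`, `|d| ≤ X`, except at most `C X / (log X)^K` of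
them, the following holds for all times `0 < t ≤ 1/8`: every zero `s` of `exp (t D²) M_d`, at any
height, with `t ℓ² ≥ K' (log log X + log (2 + |Im s|))`, where `ℓ = log X + log (2 + |Im s|)`, is simple
and on the line `Re s = 1`, and the next zero above `s` has the same properties and the distance
`(π + O(ε)) / ℓ` from `s`. -/
def HeatFlowLaw (a b : ℤ) : Prop :=
  (∃ c : ℝ, ∀ d : ℤ, Squarefree d → ∃ M : ℂ → ℂ, IsCompleted a b d c M) ∧
  ∀ (c : ℝ) (M : ℤ → ℂ → ℂ), (∀ d : ℤ, Squarefree d → IsCompleted a b d c (M d)) →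
    ∀ (K : ℕ) (ε : ℝ), 0 < ε → ∃ C K' : ℝ, ∀ (X : ℕ) (S : Finset ℤ), 3 ≤ X → S ⊆ sqf X →
      (∀ d ∈ S, ∃ (t : ℝ) (s : ℂ), 0 < t ∧ t ≤ 1 / 8 ∧
        K' * (Real.log (Real.log X) + Real.log (2 + |s.im|)) ≤
          t * (Real.log X + Real.log (2 + |s.im|)) ^ 2 ∧
        heatFlow t (M d) s = 0 ∧
        ¬ Regular (heatFlow t (M d)) (Real.log X + Real.log (2 + |s.im|)) ε s) →
      (S.card : ℝ) ≤ C * X / Real.log X ^ K

end Pool.Agent.Hp428.TH
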