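import Pool.Agent.Hp428.TD.Fin
import Pool.Agent.Hp428.TH.Law
import Pool.Agent.Hp428.TH.Main

set_option autoImplicit false

/-!
# The law for the heat flow
-/

namespace Pool.Agent.Hp428.TH

open Complex MeasureTheory
open Pool.Agent.Y19.QT (IsLFun sqf mem_sqf HasTwists lindelofLaw_of TwistsModular isLFun_uniq)
open Pool.Agent.W169.HF (heat)
open Pool.Agent.Hp428.TD

theorem heat_shift (t : ℝ) (ω : ℂ) (M : ℂ → ℂ) :
    heat t (fun z => ω * M (1 + z)) = fun z => ω * heatFlow t M (1 + z) := by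
  funext z
  unfold heat heatFlow
  have h : (fun v : ℝ => ((Real.exp (-v ^ 2) : ℝ) : ℂ) *
      (fun z => ω * M (1 + z)) (z + ((2 * Real.sqrt t * v : ℝ) : ℂ))) =
      fun v : ℝ => ω * (((Real.exp (-v ^ 2) : ℝ) : ℂ) * M (1 + z + ((2 * Real.sqrt t * v : ℝ) : ℂ))) := by
    funext v
    show _ * (ω * M (1 + (z + _))) = _
    rw [← add_assoc]
    ring
  rw [h, integral_const_mul]
  ring

theorem heat_shift_deriv (t : ℝ) (ω : ℂ) (M : ℂ → ℂ) (z : ℂ) :
    deriv (heat t (fun z => ω * M (1 + z))) z = ω * deriv (heatFlow t M) (1 + z) := by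
  rw [heat_shift, deriv_const_mul_field, deriv_comp_const_add]

theorem regular_of {t : ℝ} {ω : ℂ} {M : ℂ → ℂ} {l ε : ℝ} {s : ℂ} (hω : ω ≠ 0)
    (h : (s - 1).re = 0 ∧ deriv (heat t (fun z => ω * M (1 + z))) (s - 1) ≠ 0 ∧ ∃ g : ℝ, 0 < g ∧
      |g * l - Real.pi| ≤ ε ∧ heat t (fun z => ω * M (1 + z)) (s - 1 + g * I) = 0 ∧
      deriv (heat t (fun z => ω * M (1 + z))) (s - 1 + g * I) ≠ 0 ∧
      ∀ z : ℂ, heat t (fun z => ω * M (1 + z)) z = 0 → (s - 1).im ≤ z.im → z.im ≤ (s - 1).im + g →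
        z = s - 1 ∨ z = s - 1 + g * I) : Regular (heatFlow t M) l ε s := by
  obtain ⟨h1, h2, g, h3, h4, h5, h6, h7⟩ := h
  have e1 : (1 : ℂ) + (s - 1) = s := by ring
  have e2 : (1 : ℂ) + (s - 1 + g * I) = s + g * I := by ring
  rw [heat_shift_deriv, e1] at h2
  rw [heat_shift] at h5
  rw [heat_shift_deriv, e2] at h6
  have h5' : ω * heatFlow t M (1 + (s - 1 + g * I)) = 0 := h5
  rw [e2] at h5'
  refine ⟨?_, right_ne_zero_of_mul h2, g, h3, h4, (mul_eq_zero.1 h5').resolve_left hω,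
    right_ne_zero_of_mul h6, fun z hz hz1 hz2 => ?_⟩
  · have e : (s - 1).re = s.re - 1 := by simp
    rw [e] at h1
    linarith
  · have him : (s - 1).im = s.im := by simp
    have him2 : (z - 1).im = z.im := by simp
    have h8 := h7 (z - 1) (by
      rw [heat_shift]
      show ω * heatFlow t M (1 + (z - 1)) = 0
      rw [show (1 : ℂ) + (z - 1) = z by ring, hz, mul_zero]) (by rw [him, him2]; exact hz1)
      (by rw [him, him2]; exact hz2)
    rcases h8 with h8 | h8
    · left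
      linear_combination h8
    · right
      linear_combination h8

theorem heatLaw_of {a b : ℤ} (hab : 4 * a ^ 3 + 27 * b ^ 2 ≠ 0) (h : HasTwists a b)
    (hL : ∀ d : ℤ, Squarefree d → ∃ F : ℂ → ℂ, IsLFun (a * d ^ 2) (b * d ^ 3) F) :
    HeatFlowLaw a b := by
  have hlin := lindelofLaw_of hab h hL
  obtain ⟨Q, lam, ⟨T⟩, hQ, hlam⟩ := h
  refine ⟨exists_completed a b hab T hQ hlam hL, fun c M hM K ε hε => ?_⟩
  obtain ⟨C, K3, hC, hK3, hgood⟩ := good_twists a b hab T hQ hlam hlin K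
  have hl2 : 0 < Real.log 2 := Real.log_pos (by norm_num)
  have hlc : 0 ≤ Real.log (max 1 c) := Real.log_nonneg (le_max_left _ _)
  have hlc2 : 0 ≤ Real.log (max 1 c) / Real.log 2 := div_nonneg hlc hl2.le
  have hK0 : (0 : ℝ) ≤ K := Nat.cast_nonneg _
  obtain ⟨K2, L0, hK2, hL0, hmain⟩ := heat_abs
    (K := K3 + Real.log (max 1 c) / Real.log 2 + K + Real.log (max 1 c) + 3) (by linarith) hε
  have hex : ∀ d : ℤ, ∃ F : ℂ → ℂ, Squarefree d → IsLFun (a * d ^ 2) (b * d ^ 3) F := by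
    intro d
    by_cases hd : Squarefree d
    · obtain ⟨F, hF⟩ := hL d hd
      exact ⟨F, fun _ => hF⟩
    · exact ⟨0, fun h => absurd h hd⟩
  choose F0 hF0 using hex
  refine ⟨C + 3 * L0 ^ K, K2, fun X S hX hS hbad => ?_⟩
  have hX0 : (0 : ℝ) < X := by exact_mod_cast (by omega : 0 < X)
  have hl := Pool.Agent.Y474.QTZ6.one_le_log hX
  have hLK : 0 < Real.log X ^ K := by positivity
  rcases le_total (Real.log X) L0 with hXL | hXL
  · refine (small_X (K := K) hX hXL S hS).trans ?_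
    gcongr
    linarith
  · have h5 : 5 ≤ Real.log X := by linarith
    have key : (S.card : ℝ) ≤ C * X / Real.log X ^ K := by
      refine hgood F0 hF0 X S hX h5 hS ?_
      rintro d hd ⟨hrn, hdl⟩
      obtain ⟨t, s, ht, ht8, hn, h1, h2⟩ := hbad d hd
      obtain ⟨hdX, hsq⟩ := mem_sqf.1 (hS hd)
      have hd0 : d ≠ 0 := hsq.ne_zero
      have hdL : Real.log |(d : ℝ)| ≤ Real.log X := by
        apply Real.log_le_log (abs_pos.2 (by exact_mod_cast hd0))
        exact_mod_cast hdX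
      obtain ⟨Q', R, G, ω, hω, hGQ, hG⟩ := gq_of (hM d hsq) (hF0 d hsq) (L := Real.log X)
        (K := K3) (κ := K) h5 hK3 hK0 hd0 hdL hdl hrn
      have hG' : G = fun z => ω * M d (1 + z) := hG
      have him : (s - 1).im = s.im := by simp
      apply h2
      rw [hG'] at hGQ
      refine regular_of hω ?_
      have h3 := hmain (Real.log X) Q' R _ hXL hGQ t (s - 1) ht ht8 ?_ ?_
      · rw [him] at h3 ⊢
        exact h3
      · rw [him]
        exact hn
      · rw [heat_shift]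
        show ω * heatFlow t (M d) (1 + (s - 1)) = 0
        rw [show (1 : ℂ) + (s - 1) = s by ring, h1, mul_zero]
    refine key.trans ?_
    gcongr
    have : 0 ≤ 3 * L0 ^ K := by positivity
    linarith

end Pool.Agent.Hp428.TH
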