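import Pool.Agent.Hp428.TD.Main
import Pool.Agent.W186.SD.Spec

set_option autoImplicit false

/-!
# Growth of the completed L-function on horizontal lines
-/

namespace Pool.Agent.Hp428.TH

open Complex Filter Topology Set
open Pool.Agent.W186.SD (UU NG Grow)
open Pool.Agent.Hp428.TD
open scoped ComplexConjugate

theorem log_x {x : ℝ} (hx : 16 ≤ x) : Real.log (x + 12) ≤ 4 + (x - 16) / 28 := by
  have e : x + 12 = 28 * (1 + (x - 16) / 28) := by ring
  rw [e, Real.log_mul (by norm_num) (by nlinarith [hx])]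
  have h1 : Real.log (1 + (x - 16) / 28) ≤ (x - 16) / 28 := by
    have := Real.log_le_sub_one_of_pos (x := 1 + (x - 16) / 28) (by linarith)
    linarith
  have h2 : Real.log 28 ≤ 4 := by
    rw [Real.log_le_iff_le_exp (by norm_num)]
    have h8 : Real.exp 4 = Real.exp 1 ^ 4 := by rw [← Real.exp_nat_mul]; norm_num
    rw [h8]
    have h9 := Real.exp_one_gt_d9
    calc (28 : ℝ) ≤ 2.7 ^ 4 := by norm_num
      _ ≤ _ := by gcongr; linarith
  linarith

/-- the numerical inequality -/
theorem poly {L lam x : ℝ} (hL : 100 ≤ L) (hl : 0 ≤ lam) (hx : 16 ≤ x) :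
    (1 + 1 / 10000) * L * (x - 1) + (5 + lam + Real.log (x + 12)) * (x + 12) + (L + lam) / 1000 ≤
      2 * (L + lam) * x + (L + lam) / 128 * (x - 16) ^ 2 := by
  have h1 := log_x hx
  obtain ⟨v, hv⟩ : ∃ v : ℝ, v = x - 16 := ⟨_, rfl⟩
  have hv0 : 0 ≤ v := by linarith
  have hx' : x = v + 16 := by linarith
  have h2 : (5 + lam + Real.log (x + 12)) * (x + 12) ≤ (9 + lam + v / 28) * (x + 12) := by
    apply mul_le_mul_of_nonneg_right _ (by linarith)
    rw [← hv] at h1
    linarith
  have h3 : (1 + 1 / 10000) * L * (x - 1) + (9 + lam + v / 28) * (x + 12) + (L + lam) / 1000 ≤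
      2 * (L + lam) * x + (L + lam) / 128 * (x - 16) ^ 2 := by
    rw [hx']
    have h4 : 0 ≤ (L - 100) * v := mul_nonneg (by linarith) hv0
    have h5 : 0 ≤ lam * v := mul_nonneg hl hv0
    have h6 : 0 ≤ (L - 100) * v ^ 2 := mul_nonneg (by linarith) (sq_nonneg v)
    have h7 : 0 ≤ lam * v ^ 2 := mul_nonneg hl (sq_nonneg v)
    nlinarith [sq_nonneg v]
  linarith

theorem symm_loc {G : ℂ → ℂ} (hs : ∀ z : ℂ, G (-(conj z)) = conj (G z)) (y r : ℝ) (z : ℂ) :
    G (I * y + r * (-(conj z))) = conj (G (I * y + r * z)) := by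
  rw [← hs]
  congr 1
  simp only [map_add, map_mul, conj_I, conj_ofReal]
  ring

variable {ε K CH L y r n Q : ℝ} {R G : ℂ → ℂ}

/-- growth to the right -/
theorem grow_right (S : St ε K CH L y y r n) (H : GQ L K Q R G) {g : ℝ} (hg : r * Oq L y n / 2 ≤ g)
    {z : ℂ} (h1 : |z.im| ≤ 11) (h2 : 16 ≤ z.re) :
    ‖G (I * y + r * z)‖ ≤ ‖G (I * y + r * 1)‖ *
      Real.exp (2 * (r * Oq L y n) * z.re + g / 64 * (z.re - 16) ^ 2) := by
  obtain ⟨c, hc, hf⟩ := H.fac
  have hQ := H.hQ
  have hr := S.r_pos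
  have hn := S.n_pos
  have hy := abs_nonneg y
  have hK := S.hK
  have hL := S.hL
  have hε1 := S.hε1
  have hc0 : 0 < ‖c‖ := norm_pos_iff.2 hc
  obtain ⟨x, hx⟩ : ∃ x : ℝ, x = z.re := ⟨_, rfl⟩
  rw [← hx] at h2 ⊢
  have hu0re : (I * (y : ℂ) + r * 1).re = r := by simp
  have hu0im : (I * (y : ℂ) + r * 1).im = y := by simp
  have hu1re : (I * (y : ℂ) + r * z).re = r * x := by simp [hx]
  have hu1im : (I * (y : ℂ) + r * z).im = y + r * z.im := by simp
  have hrx : 0 ≤ r * x := by positivity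
  -- the L-function
  have a1 : ‖R (I * y + r * z)‖ ≤ Real.exp (K * (el L y + 14 * r)) := by
    refine (H.rn.up _ (by rw [hu1re]; exact hrx)).trans (Real.exp_le_exp.2 ?_)
    gcongr
    rw [hu1im]
    apply el_near hr.le
    calc |y + r * z.im| ≤ |y| + |r * z.im| := abs_add_le _ _
      _ = |y| + r * |z.im| := by rw [abs_mul, abs_of_pos hr]
      _ ≤ |y| + 27 * r := by nlinarith
  have a2 : Real.exp (-(K * el L y)) ≤ ‖R (I * y + r * 1)‖ := by
    have h3 := H.rn.low (I * y + r * 1) (by rw [hu0re]; exact hr.le)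
      (S.reg (by rw [hu0re]; linarith) (by rw [hu0im]; linarith))
    rwa [hu0im] at h3
  -- the gamma function
  have a3 : ‖Gamma (1 + (I * y + r * z))‖ ≤ ‖Gamma (1 + (I * y + r * 1))‖ *
      Real.exp ((5 + Real.log (2 + |y| + n) + Real.log (x + 12)) * (r * (x + 12))) := by
    have hp0 : 0 < ‖Gamma (1 + (I * (y : ℂ) + r * 1))‖ :=
      norm_pos_iff.2 (Gamma_ne (by rw [hu0re]; exact hr.le))
    have hp1 : 0 < ‖Gamma (1 + (I * (y : ℂ) + r * z))‖ :=
      norm_pos_iff.2 (Gamma_ne (by rw [hu1re]; exact hrx))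
    have hnz : ‖z‖ ≤ x + 11 := by
      refine (norm_le_abs_re_add_abs_im z).trans ?_
      rw [← hx, abs_of_nonneg (by linarith)]
      linarith
    have h3 := gam_seg (S := {u : ℂ | 0 ≤ u.re} ∩ Metric.closedBall (I * (y : ℂ)) (r * (x + 11)))
      ((convex_halfSpace_re_ge 0).inter (convex_closedBall _ _)) (fun x hx => hx.1) (l := 0)
      (ε := 5 + Real.log (2 + |y| + n) + Real.log (x + 12)) ?_ (u := I * y + r * 1)
      (v := I * y + r * z) ⟨?_, ?_⟩ ⟨?_, ?_⟩
    · have h4 : ‖I * (y : ℂ) + r * z - (I * y + r * 1)‖ ≤ r * (x + 12) := by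
        have e : I * (y : ℂ) + r * z - (I * y + r * 1) = r * (z - 1) := by ring
        rw [e, norm_mul, Complex.norm_real, Real.norm_eq_abs, abs_of_pos hr]
        have h5 : ‖z - 1‖ ≤ ‖z‖ + 1 := by
          refine (norm_sub_le _ _).trans ?_
          simp
        gcongr
        linarith
      have h6 := (abs_le.1 h3).2
      have h7 : 0 ≤ 5 + Real.log (2 + |y| + n) + Real.log (x + 12) := by
        have := Real.log_nonneg (x := 2 + |y| + n) (by linarith)
        have := Real.log_nonneg (x := x + 12) (by linarith)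
        linarith
      have h8 := mul_le_mul_of_nonneg_left h4 h7
      calc ‖Gamma (1 + (I * (y : ℂ) + r * z))‖ = Real.exp (Real.log ‖Gamma (1 + (I * (y : ℂ) + r * z))‖) :=
            (Real.exp_log hp1).symm
        _ ≤ Real.exp (Real.log ‖Gamma (1 + (I * (y : ℂ) + r * 1))‖ +
            (5 + Real.log (2 + |y| + n) + Real.log (x + 12)) * (r * (x + 12))) := by
            apply Real.exp_le_exp.2
            linarith
        _ = _ := by rw [Real.exp_add, Real.exp_log hp0]
    · rintro u ⟨hu1, hu2⟩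
      simp only [ofReal_zero, sub_zero]
      refine (psi_norm hu1).trans ?_
      have h4 : 0 < ‖u + 3‖ := by
        have h : (3 : ℝ) ≤ (u + 3).re := by
          simp
          exact hu1
        have := h.trans (re_le_norm _)
        linarith
      have h5 : ‖u + 3‖ ≤ (2 + |y| + n) * (x + 12) := by
        have h6 : ‖u - I * y‖ ≤ r * (x + 11) := by
          rw [Metric.mem_closedBall, dist_eq_norm] at hu2
          exact hu2
        have h7 : ‖u + 3‖ ≤ ‖u - I * y‖ + ‖I * (y : ℂ)‖ + 3 := by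
          have e : u + 3 = (u - I * y) + I * y + 3 := by ring
          rw [e]
          refine (norm_add_le _ _).trans ?_
          have : ‖(3 : ℂ)‖ = 3 := by simp
          rw [this]
          gcongr
          exact norm_add_le _ _
        have h8 : ‖I * (y : ℂ)‖ = |y| := by simp
        have h9 := S.hr2
        rw [h8] at h7
        have h10 : r * (x + 11) ≤ (n + 1) * (x + 11) := by gcongr
        nlinarith
      have h6 := Real.log_le_log h4 h5
      rw [Real.log_mul (by positivity) (by linarith)] at h6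
      linarith
    · show 0 ≤ (I * (y : ℂ) + r * 1).re
      rw [hu0re]; exact hr.le
    · rw [Metric.mem_closedBall, dist_eq_norm]
      have e : I * (y : ℂ) + r * 1 - I * y = r := by ring
      rw [e, Complex.norm_real, Real.norm_eq_abs, abs_of_pos hr]
      nlinarith
    · show 0 ≤ (I * (y : ℂ) + r * z).re
      rw [hu1re]; exact hrx
    · rw [Metric.mem_closedBall, dist_eq_norm]
      have e : I * (y : ℂ) + r * z - I * y = r * z := by ring
      rw [e, norm_mul, Complex.norm_real, Real.norm_eq_abs, abs_of_pos hr]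
      gcongr
  -- the factor `Q`
  have a4 : ‖(Q : ℂ) ^ (I * (y : ℂ) + r * z)‖ ≤ ‖(Q : ℂ) ^ (I * (y : ℂ) + r * 1)‖ *
      Real.exp ((1 + 1 / 10000) * L * (r * (x - 1))) := by
    rw [Complex.norm_cpow_eq_rpow_re_of_pos hQ, Complex.norm_cpow_eq_rpow_re_of_pos hQ, hu0re, hu1re,
      Real.rpow_def_of_pos hQ, Real.rpow_def_of_pos hQ, ← Real.exp_add]
    apply Real.exp_le_exp.2
    have h3 := (abs_le.1 H.q).2
    have h4 := S.l1
    have h5 : Real.log Q ≤ (1 + 1 / 10000) * L := by nlinarith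
    have h6 : 0 ≤ r * (x - 1) := mul_nonneg hr.le (by linarith)
    nlinarith
  -- everything
  rw [hf (I * y + r * 1) (by rw [hu0re]; exact hr.le), hf (I * y + r * z) (by rw [hu1re]; exact hrx)]
  simp only [norm_mul]
  obtain ⟨Q0, hQ0⟩ : ∃ Q0, Q0 = ‖(Q : ℂ) ^ (I * (y : ℂ) + r * 1)‖ := ⟨_, rfl⟩
  obtain ⟨G0, hG0⟩ : ∃ G0, G0 = ‖Gamma (1 + (I * (y : ℂ) + r * 1))‖ := ⟨_, rfl⟩
  obtain ⟨R0, hR0⟩ : ∃ R0, R0 = ‖R (I * (y : ℂ) + r * 1)‖ := ⟨_, rfl⟩
  rw [← hQ0, ← hG0, ← hR0]
  rw [← hQ0] at a4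
  rw [← hG0] at a3
  rw [← hR0] at a2
  have hQ0p : 0 ≤ Q0 := by rw [hQ0]; positivity
  have hG0p : 0 ≤ G0 := by rw [hG0]; positivity
  have hR0p : 0 < R0 := lt_of_lt_of_le (Real.exp_pos _) a2
  have a1' : ‖R (I * y + r * z)‖ ≤ R0 * Real.exp (K * (2 * el L y + 14 * r)) := by
    refine a1.trans ?_
    calc Real.exp (K * (el L y + 14 * r)) = Real.exp (-(K * el L y)) * Real.exp (K * (2 * el L y + 14 * r)) := by
          rw [← Real.exp_add]
          congr 1
          ring
      _ ≤ _ := by gcongr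
  have hO := S.Om_pos
  obtain ⟨Om, hOm⟩ : ∃ Om, Om = Oq L y n := ⟨_, rfl⟩
  have hOm' : Om = L + Real.log (2 + |y| + n) := hOm
  rw [← hOm] at hO hg ⊢
  have hlam : 0 ≤ Real.log (2 + |y| + n) := Real.log_nonneg (by linarith)
  calc ‖c‖ * ‖(Q : ℂ) ^ (I * (y : ℂ) + r * z)‖ * ‖Gamma (1 + (I * (y : ℂ) + r * z))‖ *
        ‖R (I * (y : ℂ) + r * z)‖
      ≤ ‖c‖ * (Q0 * Real.exp ((1 + 1 / 10000) * L * (r * (x - 1)))) *
        (G0 * Real.exp ((5 + Real.log (2 + |y| + n) + Real.log (x + 12)) * (r * (x + 12)))) *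
        (R0 * Real.exp (K * (2 * el L y + 14 * r))) := by gcongr
    _ = ‖c‖ * Q0 * G0 * R0 * Real.exp ((1 + 1 / 10000) * L * (r * (x - 1)) +
        (5 + Real.log (2 + |y| + n) + Real.log (x + 12)) * (r * (x + 12)) +
        K * (2 * el L y + 14 * r)) := by
        rw [Real.exp_add, Real.exp_add]
        ring
    _ ≤ _ := by
        refine mul_le_mul_of_nonneg_left (Real.exp_le_exp.2 ?_) (by positivity)
        have h14 : 0 ≤ r * Om := by positivity
        have h3 := poly hL hlam h2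
        rw [← hOm'] at h3
        have h4 : K * (2 * el L y) ≤ r * Om / 4000 := by
          have h5 := S.hn
          have h6 := S.hr
          rw [← hOm] at h6
          have h7 : 0 ≤ 4 * K * CH / ε * el L y := by
            have := S.hε
            have := S.hCH
            have := el_nonneg (L := L) (by linarith) y
            positivity
          nlinarith
        have h8 : K * (14 * r) ≤ r * Om / 4000 := by
          have h9 := S.l4
          have h10 : L ≤ Om := by rw [hOm']; linarith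
          have h11 : K * 60000 * r ≤ Om * r := by
            apply mul_le_mul_of_nonneg_right _ hr.le
            linarith
          linarith
        have h12 := mul_le_mul_of_nonneg_left h3 hr.le
        have h13 : r * Om / 2 / 64 * (x - 16) ^ 2 ≤ g / 64 * (x - 16) ^ 2 := by gcongr
        linarith

/-- growth -/
theorem grow_of (S : St ε K CH L y y r n) (H : GQ L K Q R G) {g : ℝ} (hg : r * Oq L y n / 2 ≤ g) :
    Grow (r * Oq L y n) g (fun z => G (I * y + r * z)) := by
  intro z h1 h2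
  show ‖G (I * y + r * z)‖ ≤ ‖G (I * y + r * 1)‖ * _
  rcases le_total 0 z.re with h | h
  · rw [abs_of_nonneg h] at h2 ⊢
    exact grow_right S H hg h1 h2
  · rw [abs_of_nonpos h] at h2 ⊢
    have h3 := grow_right S H hg (z := -(conj z)) (by simpa using h1) (by simpa using h2)
    rw [symm_loc H.symm, Complex.norm_conj] at h3
    simpa using h3

end Pool.Agent.Hp428.TH
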