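import Pool.Agent.Hp428.TH.Grow
import Pool.Agent.Y671.LD.AllH
import Pool.Agent.W176.SDPT
import Pool.Agent.Y275.GL.HHT
import Pool.Agent.R838.CR.Reg

set_option autoImplicit false

/-!
# The local situation at all scales, and the heat flow
-/

namespace Pool.Agent.Hp428.TH

open Complex Filter Topology Set MeasureTheory
open Pool.Agent.H24R2.DZ (NN)
open Pool.Agent.W186.SD (UU NG Grow)
open Pool.Agent.Y671.LD (NN_mono)
open Pool.Agent.R838.CR (RELI)
open Pool.Agent.W169.HF (heat Slow)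
open Pool.Agent.Hp428.TD
open H353.E (GLc tend_shift)
open scoped ComplexConjugate

/-- the standing assumptions hold for all scales, real parameter -/
theorem ng_all {K : ℝ} (hK : 1 ≤ K) {η' : ℝ} (hη' : 0 < η') {a0 : ℝ} (ha0 : 0 ≤ a0) :
    ∃ K2 L0 : ℝ, 1 ≤ K2 ∧ 100 ≤ L0 ∧
    ∀ (L Q : ℝ) (R G : ℂ → ℂ), L0 ≤ L → GQ L K Q R G → ∀ n y : ℝ, K2 * el L y ≤ n →
      a0 ≤ n ∧ 1 ≤ n ∧ L ≤ Oq L y n ∧ ∀ r g : ℝ, n ≤ r * Oq L y n → r ≤ n + 1 →
        r * Oq L y n / 2 ≤ g → NG (1 / 2) (r * Oq L y n) g η' (fun z => G (I * y + r * z)) := by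
  obtain ⟨η, hη, hngn⟩ := Pool.Agent.W333.SDNGN.ngn η' hη'
  obtain ⟨CH0, hCH0, hH0⟩ := Pool.Agent.W688.SD.shar
  set CH := max CH0 1 with hCH
  have hCH1 : 1 ≤ CH := le_max_right _ _
  have hH : ∀ (B : ℝ) (K : ℂ → ℂ), 0 ≤ B →
      (∀ z : ℂ, 1 / 2000 ≤ z.re → z.re ≤ 25 → |z.im| ≤ 25 →
        DifferentiableAt ℂ K z ∧ K z ≠ 0 ∧ ‖K z‖ ≤ Real.exp B * ‖K 1‖) →
      ∀ z : ℂ, 1 / 1000 ≤ z.re → z.re ≤ 21 → |z.im| ≤ 21 → ‖logDeriv K z‖ ≤ CH * B := by
    intro B Kf hB h z h1 h2 h3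
    exact (hH0 B Kf hB h z h1 h2 h3).trans (by gcongr; exact le_max_left _ _)
  set ε := min (η / 10) (1 / 10000) with hε
  have hε0 : 0 < ε := lt_min (by positivity) (by norm_num)
  have hε1 : ε ≤ 1 / 10000 := min_le_right _ _
  have hε2 : 10 * ε ≤ η := by
    have := min_le_left (η / 10) (1 / 10000)
    linarith
  obtain ⟨L0, a1, a2, a3, a4⟩ := consts hK (by linarith : 0 < CH) hε0
  refine ⟨16000 * K + 4 * K * CH / ε + 2 * a0, L0, ?_, a1, ?_⟩
  · have : 0 ≤ 4 * K * CH / ε := by positivity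
    linarith
  intro L Q R G hL H n y hn
  have hL1 : 1 ≤ L := by linarith
  have hel := el_pos hL1 y
  have hel2 : 1 / 2 ≤ el L y := by
    unfold el
    have h1 := Real.log_nonneg hL1
    have h2 : Real.log 2 ≤ Real.log (2 + |y|) := Real.log_le_log (by norm_num) (by
      have := abs_nonneg y
      linarith)
    have := Real.log_two_gt_d9
    linarith
  have hn' : (16000 * K + 4 * K * CH / ε) * el L y ≤ n := by
    have : 0 ≤ 2 * a0 * el L y := by positivity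
    linarith
  have hnn0 : a0 ≤ n := by
    have h1 : 0 ≤ (16000 * K + 4 * K * CH / ε) * el L y := by positivity
    have h2 : a0 ≤ 2 * a0 * el L y := by nlinarith
    linarith
  have hn1 : 1 ≤ n := by
    have h1 : 0 ≤ 4 * K * CH / ε * el L y := by positivity
    have h2 : 1 * (1 / 2) ≤ K * el L y := by gcongr
    nlinarith
  have hOL : L ≤ Oq L y n := by
    unfold Oq
    have h : 0 ≤ Real.log (2 + |y| + n) := Real.log_nonneg (by
      have := abs_nonneg y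
      linarith)
    linarith
  refine ⟨hnn0, hn1, hOL, fun r g h1 h2 h3 => ?_⟩
  have hr0 : 0 ≤ r := by
    by_contra hcon
    push Not at hcon
    have : 0 < Oq L y n := by linarith
    nlinarith
  have hx := a4 (Oq L y n) (hL.trans hOL)
  have S : St ε K CH L y y r n :=
    { hε := hε0
      hε1 := hε1
      hK := hK
      hCH := hCH1
      hL := a1.trans hL
      l1 := (a4 L hL).1
      l2 := hx.2.1
      l3 := hx.2.2
      l4 := a2.trans hL
      l5 := a3.trans hL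
      hn := hn'
      hy := by simpa using hr0
      hr := h1
      hr2 := h2 }
  have ha1 : 1 ≤ r * Oq L y n := hn1.trans h1
  exact hngn _ _ _ ha1 (NN_mono (nn_of hH S H) hε2 (by linarith)) (grow_of S H h3)

variable {L K Q : ℝ} {R G : ℂ → ℂ}

/-- the completed L-function grows slowly -/
theorem slow_G (hK : 1 ≤ K) (hL : 1 ≤ L) (H : GQ L K Q R G) : Slow G := by
  obtain ⟨E, hmono, htend, hb⟩ := (glc hK hL H).slow
  refine ⟨H.diff, fun δ hδ => ?_⟩
  have h1 := tend_shift htend (1 / 2)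
  have h2 : ∀ᶠ ρ : ℝ in atTop, E (ρ + 1 / 2) / ρ ^ 2 ≤ δ := by
    filter_upwards [h1.eventually (gt_mem_nhds hδ)] with ρ hρ
    exact hρ.le
  obtain ⟨ρ0, hρ0⟩ := eventually_atTop.1 (h2.and (eventually_ge_atTop (1 : ℝ)))
  refine ⟨Real.exp (max 0 (E (max ρ0 1 + 1 / 2))), Real.exp_pos _, fun z => ?_⟩
  have h3 := hb (z + 1 / 2)
  have e : z + 1 / 2 - 1 / 2 = z := by ring
  beta_reduce at h3
  rw [e] at h3
  refine h3.trans ?_
  rw [← Real.exp_add]
  apply Real.exp_le_exp.2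
  have h4 : ‖z + 1 / 2‖ ≤ ‖z‖ + 1 / 2 := by
    refine (norm_add_le _ _).trans ?_
    have : ‖(1 / 2 : ℂ)‖ = 1 / 2 := by simp
    linarith
  have h5 := hmono h4
  have hm := le_max_left 0 (E (max ρ0 1 + 1 / 2))
  rcases le_total ‖z‖ (max ρ0 1) with h | h
  · have h6 := hmono (show ‖z‖ + 1 / 2 ≤ max ρ0 1 + 1 / 2 by linarith)
    have h7 := le_max_right 0 (E (max ρ0 1 + 1 / 2))
    have h8 : 0 ≤ δ * ‖z‖ ^ 2 := by positivity
    linarith
  · obtain ⟨h6, h7⟩ := hρ0 ‖z‖ ((le_max_left _ _).trans h)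
    rw [div_le_iff₀ (by positivity)] at h6
    linarith

theorem strip_G (hK : 1 ≤ K) (hL : 1 ≤ L) (H : GQ L K Q R G) (s : ℂ) (hs : G s = 0) :
    |s.re| ≤ 1 / 2 := by
  have key : ∀ s : ℂ, G s = 0 → s.re ≤ 1 / 2 := by
    intro s hs
    have h1 := (glc hK hL H).zer (s + 1 / 2) (by
      beta_reduce
      rw [show s + 1 / 2 - 1 / 2 = s by ring]
      exact hs)
    have e : (s + 1 / 2).re = s.re + 1 / 2 := by simp
    rw [e] at h1
    linarith
  rw [abs_le]
  constructor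
  · have h2 := key (-(conj s)) (by rw [H.symm, hs, map_zero])
    simp at h2
    linarith
  · exact key s hs

theorem nz_G (hK : 1 ≤ K) (hL : 1 ≤ L) (H : GQ L K Q R G) : ∃ z, G z ≠ 0 := by
  refine ⟨1, fun h => ?_⟩
  have := strip_G hK hL H 1 h
  norm_num at this

/-- the heat flow in local coordinates -/
theorem rel_G (G : ℂ → ℂ) : RELI G (fun τ => heat τ G) := by
  intro τ r t0 z hτ hr
  show heat τ G (I * t0 + r * z) = _
  unfold heat
  have hsq : 0 < Real.sqrt τ := Real.sqrt_pos.2 hτ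
  have hpi : 0 < Real.sqrt Real.pi := Real.sqrt_pos.2 Real.pi_pos
  obtain ⟨k, hk⟩ : ∃ k, k = r / (2 * Real.sqrt τ) := ⟨_, rfl⟩
  have hk0 : 0 < k := by rw [hk]; positivity
  have h1 := MeasureTheory.Measure.integral_comp_mul_left
    (fun v : ℝ => ((Real.exp (-v ^ 2) : ℝ) : ℂ) *
      G ((I * t0 + r * z) + ((2 * Real.sqrt τ * v : ℝ) : ℂ))) k
  have h2 : (fun u : ℝ => ((Real.exp (-(k * u) ^ 2) : ℝ) : ℂ) *
      G ((I * t0 + r * z) + ((2 * Real.sqrt τ * (k * u) : ℝ) : ℂ))) =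
      fun u : ℝ => ((Real.exp (-(r ^ 2 / (4 * τ) * u ^ 2)) : ℝ) : ℂ) *
        G (I * t0 + r * (z + (u : ℂ))) := by
    funext u
    have e1 : -(k * u) ^ 2 = -(r ^ 2 / (4 * τ) * u ^ 2) := by
      rw [hk, mul_pow, div_pow, mul_pow, Real.sq_sqrt hτ.le]
      ring
    have e2 : 2 * Real.sqrt τ * (k * u) = r * u := by
      rw [hk]
      field_simp
    rw [e1, e2]
    congr 2
    push_cast
    ring
  rw [h2] at h1
  rw [UU, h1, abs_of_pos (inv_pos.2 hk0)]
  rw [Complex.real_smul, ← mul_assoc, ← Complex.ofReal_mul]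
  congr 2
  rw [hk, Real.sqrt_mul Real.pi_pos.le]
  field_simp

end Pool.Agent.Hp428.TH
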